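import Pool.Agent.Run7.h23.Rn.Base

/-!
# Numbers of places in a non-cyclic Galois 2-extension
-/

set_option autoImplicit false
set_option linter.all false

open IsDedekindDomain NumberField
open scoped Classical Pointwise

namespace Run7.h23.Rn

section gen

variable {A B G : Type} [CommRing A] [IsDomain A] [CommRing B] [IsDedekindDomain B] [Algebra A B]
  [Module.Finite A B] [Module.Flat A B] [Module.IsTorsionFree A B] [Group G] [Finite G]
  [MulSemiringAction G B] [IsGaloisGroup G A B]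

theorem even_fibre {n : ℕ} (hG : Nat.card G = 2 ^ n) (hnc : ¬ IsCyclic G)
    (hfin : ∀ I : Ideal B, I ≠ ⊥ → Finite (B ⧸ I))
    (P : HeightOneSpectrum B) (hp : P.asIdeal.comap (algebraMap A B) ≠ ⊥)
    (hun : ¬ (P.asIdeal.comap (algebraMap A B)).map (algebraMap A B) ≤ P.asIdeal ^ 2) :
    Even ({Q | Q.asIdeal.comap (algebraMap A B) = P.asIdeal.comap (algebraMap A B)} :
      Set (HeightOneSpectrum B)).ncard := by
  set p : Ideal A := P.asIdeal.comap (algebraMap A B) with hpdef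
  haveI : Algebra.IsIntegral A B := Algebra.IsIntegral.of_finite A B
  haveI := P.isMaximal
  haveI hlies : P.asIdeal.LiesOver p := ⟨rfl⟩
  haveI : p.IsMaximal := Ideal.isMaximal_comap_of_isIntegral_of_isMaximal _
  haveI : Finite (B ⧸ P.asIdeal) := hfin _ P.ne_bot
  haveI : Finite (A ⧸ p) := Finite.of_injective (algebraMap (A ⧸ p) (B ⧸ P.asIdeal))
    (FaithfulSMul.algebraMap_injective _ _)
  haveI : Finite p.ResidueField := by
    refine Finite.of_surjective (algebraMap (A ⧸ p) p.ResidueField) ?_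
    exact (Ideal.bijective_algebraMap_quotient_residueField p).2
  have he : Nat.card (P.asIdeal.inertia G) = 1 := by
    rw [Ideal.card_inertia_eq_ramificationIdxIn p, Ideal.ramificationIdxIn_eq_ramificationIdx p
      P.asIdeal G, ← Ideal.ramificationIdx'_eq_ramificationIdx p P.asIdeal hp]
    by_contra hne
    exact hun ((Ideal.ramificationIdx'_ne_one_iff Ideal.map_comap_le).1 hne)
  have h1 := even_primesOver (A := A) (B := B) (G := G) hG hnc p P.asIdeal he
  have h2 : (Ideal.primesOver p B).ncard = ({Q | Q.asIdeal.comap (algebraMap A B) = p} :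
      Set (HeightOneSpectrum B)).ncard := by
    rw [← Set.ncard_image_of_injective ({Q | Q.asIdeal.comap (algebraMap A B) = p} :
      Set (HeightOneSpectrum B)) (f := HeightOneSpectrum.asIdeal) (fun x y h => by
        exact HeightOneSpectrum.ext h)]
    congr 1
    ext Q
    constructor
    · rintro ⟨h3, h4⟩
      have hQ : Q ≠ ⊥ := by
        rintro rfl
        apply hp
        have h5 := h4.over
        rw [h5, Ideal.under, Ideal.comap_bot_of_injective _ (FaithfulSMul.algebraMap_injective A B)]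
      exact ⟨⟨Q, h3, hQ⟩, h4.over.symm, rfl⟩
    · rintro ⟨v, hv, rfl⟩
      exact ⟨v.isPrime, ⟨hv.symm⟩⟩
  rwa [← h2]

end gen

section nf

variable {F K : Type} [Field F] [NumberField F] [Field K] [NumberField K] [Algebra F K]
  [IsGalois F K]

theorem two_le {n : ℕ} (hn : Module.finrank F K = 2 ^ n) (hnc : ¬ IsCyclic (K ≃ₐ[F] K)) :
    2 ≤ n := by
  have hc : Nat.card (K ≃ₐ[F] K) = 2 ^ n := by rw [IsGalois.card_aut_eq_finrank, hn]
  by_contra hlt
  have : n = 0 ∨ n = 1 := by omega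
  apply hnc
  rcases this with rfl | rfl
  · rw [pow_zero, Nat.card_eq_one_iff_unique] at hc
    haveI := hc.1
    exact isCyclic_of_subsingleton
  · rw [pow_one] at hc
    haveI : Fact (Nat.Prime 2) := ⟨Nat.prime_two⟩
    exact isCyclic_of_prime_card hc

theorem even_inf {n : ℕ} (hn : Module.finrank F K = 2 ^ n) (hnc : ¬ IsCyclic (K ≃ₐ[F] K)) :
    Even (Fintype.card (InfinitePlace K)) := by
  have h2 := two_le hn hnc
  obtain ⟨m, rfl⟩ : ∃ m, n = m + 2 := ⟨n - 2, by omega⟩
  rw [NumberField.InfinitePlace.card_eq_card_isUnramifiedIn (k := F), hn]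
  have e1 : 2 ^ (m + 2) / 2 = 2 * 2 ^ m := by
    rw [pow_add]
    omega
  rw [e1]
  refine Even.add (Even.mul_left ?_ _) (Even.mul_left (even_two_mul _) _)
  exact (Nat.even_pow.2 ⟨even_two, by omega⟩)

theorem even_nf {n : ℕ} (hn : Module.finrank F K = 2 ^ n) (hnc : ¬ IsCyclic (K ≃ₐ[F] K))
    (P : HeightOneSpectrum (𝓞 K))
    (hun : ¬ (P.asIdeal.comap (algebraMap (𝓞 F) (𝓞 K))).map (algebraMap (𝓞 F) (𝓞 K)) ≤
      P.asIdeal ^ 2) :
    Even ({Q | Q.asIdeal.comap (algebraMap (𝓞 F) (𝓞 K)) =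
      P.asIdeal.comap (algebraMap (𝓞 F) (𝓞 K))} : Set (HeightOneSpectrum (𝓞 K))).ncard := by
  refine even_fibre (G := K ≃ₐ[F] K) (n := n) (by rw [IsGalois.card_aut_eq_finrank, hn]) hnc
    (fun I hI => Ideal.finiteQuotientOfFreeOfNeBot I hI) P ?_ hun
  exact Ideal.IsIntegralClosure.comap_ne_bot (A := 𝓞 K) (R := 𝓞 F) P.ne_bot

theorem even_rat [IsGalois ℚ K] {n : ℕ} (hn : Module.finrank ℚ K = 2 ^ n)
    (hnc : ¬ IsCyclic (K ≃ₐ[ℚ] K)) (P : HeightOneSpectrum (𝓞 K))
    (hun : ¬ (P.asIdeal.comap (algebraMap ℤ (𝓞 K))).map (algebraMap ℤ (𝓞 K)) ≤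
      P.asIdeal ^ 2) :
    Even ({Q | Q.asIdeal.comap (algebraMap ℤ (𝓞 K)) =
      P.asIdeal.comap (algebraMap ℤ (𝓞 K))} : Set (HeightOneSpectrum (𝓞 K))).ncard := by
  refine even_fibre (G := K ≃ₐ[ℚ] K) (n := n) (by rw [IsGalois.card_aut_eq_finrank, hn]) hnc
    (fun I hI => Ideal.finiteQuotientOfFreeOfNeBot I hI) P ?_ hun
  exact Ideal.IsIntegralClosure.comap_ne_bot (A := 𝓞 K) (R := ℤ) P.ne_bot

end nf

end Run7.h23.Rn
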