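import Mathlib

/-!
# Products of signs over the primes of a non-cyclic Galois 2-extension
-/

set_option autoImplicit false
set_option linter.all false

open IsDedekindDomain NumberField
open scoped Classical Pointwise

namespace Run7.h23.Rn

/-- A product of signs which are constant on the fibres of a map, all the relevant fibres having an even
number of elements, is `1`. -/
theorem finprod_one {ι κ : Type} (φ : ι → κ) (W : ι → ℤˣ)
    (hc : ∀ P Q, φ P = φ Q → W P = W Q)
    (he : ∀ P, W P ≠ 1 → Even ({Q | φ Q = φ P} : Set ι).ncard) : ∏ᶠ P, W P = 1 := by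
  by_cases hfin : (Function.mulSupport W).Finite
  · rw [finprod_eq_prod_of_mulSupport_subset W (s := hfin.toFinset) (by simp)]
    rw [← Finset.prod_fiberwise_of_maps_to (t := hfin.toFinset.image φ) (g := φ)
      (fun x hx => Finset.mem_image_of_mem _ hx)]
    refine Finset.prod_eq_one fun v hv => ?_
    obtain ⟨P, hP, rfl⟩ := Finset.mem_image.1 hv
    have hP1 : W P ≠ 1 := by
      simpa using hP
    have hset : ({Q | φ Q = φ P} : Set ι) = (hfin.toFinset.filter fun Q => φ Q = φ P : Finset ι) := by
      ext Q
      simp only [Set.mem_setOf_eq, Finset.coe_filter, Set.Finite.mem_toFinset,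
        Function.mem_mulSupport]
      exact ⟨fun h => ⟨by rw [hc Q P h]; exact hP1, h⟩, fun h => h.2⟩
    have h1 := he P hP1
    rw [hset, Set.ncard_coe_finset] at h1
    rw [Finset.prod_congr rfl (g := fun _ => W P) (fun Q hQ => hc Q P (Finset.mem_filter.1 hQ).2),
      Finset.prod_const]
    obtain ⟨m, hm⟩ := h1
    rw [hm, pow_add, ← mul_pow, Int.units_mul_self, one_pow]
  · exact finprod_of_infinite_mulSupport hfin

section overp

variable {A B G : Type} [CommRing A] [IsDomain A] [CommRing B] [IsDedekindDomain B] [Algebra A B]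
  [Module.Finite A B] [Module.Flat A B] [Group G] [Finite G] [MulSemiringAction G B]
  [IsGaloisGroup G A B]

/-- In a non-cyclic Galois extension of 2-power degree there is an even number of primes over every prime
with inertia degree one... -/
theorem even_primesOver {n : ℕ} (hG : Nat.card G = 2 ^ n) (hnc : ¬ IsCyclic G) (p : Ideal A)
    [p.IsMaximal] [Finite (A ⧸ p)] (P : Ideal B) [P.IsMaximal] [P.LiesOver p]
    [Finite (B ⧸ P)] (he : Nat.card (P.inertia G) = 1) :
    Even (Ideal.primesOver p B).ncard := by
  have h1 := Ideal.ncard_primesOver_mul_ramificationIdxIn_mul_inertiaDegIn p B G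
  have hdvd : (Ideal.primesOver p B).ncard ∣ 2 ^ n := by
    rw [← hG, ← h1]
    exact dvd_mul_right _ _
  obtain ⟨m, hm, hm'⟩ := (Nat.dvd_prime_pow Nat.prime_two).1 hdvd
  rcases Nat.eq_zero_or_pos m with rfl | hmpos
  · exfalso
    rw [pow_zero] at hm'
    apply hnc
    haveI : Algebra.IsInvariant A B G := IsGaloisGroup.isInvariant
    -- the decomposition group is everything
    have hst : MulAction.stabilizer G P = ⊤ := by
      rw [eq_top_iff]
      intro σ _
      rw [MulAction.mem_stabilizer_iff]
      obtain ⟨a, ha⟩ := Set.ncard_eq_one.1 hm'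
      have hP : P ∈ Ideal.primesOver p B := ⟨inferInstance, inferInstance⟩
      have hσP : σ • P ∈ Ideal.primesOver p B := ⟨inferInstance, inferInstance⟩
      rw [ha, Set.mem_singleton_iff] at hP hσP
      rw [hσP, hP]
    letI : Field (A ⧸ p) := Ideal.Quotient.field p
    letI : Field (B ⧸ P) := Ideal.Quotient.field P
    have hinj : Function.Injective (Ideal.Quotient.stabilizerHom P p G) := by
      rw [← MonoidHom.ker_eq_bot_iff]
      have h2 := Ideal.Quotient.map_ker_stabilizer_subtype P p G
      have h3 : P.inertia G = ⊥ := Subgroup.card_eq_one.1 he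
      rw [h3] at h2
      exact (Subgroup.map_eq_bot_iff_of_injective _ (Subgroup.subtype_injective _)).1 h2
    haveI : IsCyclic ((B ⧸ P) ≃ₐ[A ⧸ p] (B ⧸ P)) := inferInstance
    haveI : IsCyclic (MulAction.stabilizer G P) :=
      isCyclic_of_injective _ hinj
    rw [hst] at this
    exact isCyclic_of_surjective (Subgroup.topEquiv (G := G)) (Subgroup.topEquiv (G := G)).surjective
  · rw [hm']
    exact (Nat.even_pow.2 ⟨even_two, hmpos.ne'⟩)

end overp

end Run7.h23.Rn
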